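import Mathlib
import Pool.Agent.W650.HL.Stm

set_option autoImplicit false

open Finset

namespace Pool.Agent.W255.HL

open Pool.W650.HL

theorem leafrem : LEAFREM := by
  classical
  intro V _ _ r a G F l u hl
  obtain ⟨hadj, huniq⟩ := hl
  have hul : u ≠ l := fun h => by
    subst h
    exact G.loopless.irrefl _ hadj
  set u' : {v : V // v ≠ l} := ⟨u, hul⟩ with hu'
  unfold Zf
  refine (Finset.sum_congr (s₂ := (Finset.univ : Finset (V → Fin r))) (by ext; simp)
    (fun _ _ => rfl)).trans ?_
  refine (Fintype.sum_equiv (Equiv.funSplitAt l (Fin r)) _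
    (fun p => if (∀ x y, G.Adj x y → (Equiv.funSplitAt l (Fin r)).symm p x ≠
        (Equiv.funSplitAt l (Fin r)).symm p y) then
      ∏ v, (a ((Equiv.funSplitAt l (Fin r)).symm p v) *
        F v ((Equiv.funSplitAt l (Fin r)).symm p v)) else 0) ?_).trans ?_
  · intro σ
    simp only [Equiv.symm_apply_apply]
  rw [Fintype.sum_prod_type_right]
  refine Finset.sum_congr (by ext; simp) ?_
  intro τ _
  -- properness
  have hval : ∀ (c : Fin r) (v : {v : V // v ≠ l}),
      (Equiv.funSplitAt l (Fin r)).symm (c, τ) v.1 = τ v := by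
    intro c v
    simp [Equiv.funSplitAt, Equiv.piSplitAt, v.2]
  have hvl : ∀ (c : Fin r), (Equiv.funSplitAt l (Fin r)).symm (c, τ) l = c := by
    intro c
    simp [Equiv.funSplitAt, Equiv.piSplitAt]
  have hP : ∀ c : Fin r,
      (∀ x y, G.Adj x y → (Equiv.funSplitAt l (Fin r)).symm (c, τ) x ≠
        (Equiv.funSplitAt l (Fin r)).symm (c, τ) y) ↔
      ((∀ x y : {v : V // v ≠ l}, (del G l).Adj x y → τ x ≠ τ y) ∧ c ≠ τ u') := by
    intro c
    constructor
    · intro h
      refine ⟨?_, ?_⟩
      · intro x y hxy
        have := h x.1 y.1 hxy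
        rwa [hval, hval] at this
      · have := h l u hadj
        rw [hvl] at this
        rwa [← hval c u']
    · rintro ⟨h1, h2⟩ x y hxy
      by_cases hx : x = l
      · subst hx
        have hy : y = u := huniq y hxy
        subst hy
        rw [hvl]
        have := hval c u'
        rw [hu'] at this
        simp only at this
        rw [this]
        exact h2
      · by_cases hy : y = l
        · subst hy
          have hx' : x = u := huniq x hxy.symm
          subst hx'
          rw [hvl]
          have := hval c u'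
          rw [hu'] at this
          simp only at this
          rw [this]
          exact fun h => h2 h.symm
        · have e1 := hval c ⟨x, hx⟩
          have e2 := hval c ⟨y, hy⟩
          simp only at e1 e2
          rw [e1, e2]
          exact h1 ⟨x, hx⟩ ⟨y, hy⟩ hxy
  have hprod : ∀ c : Fin r,
      (∏ v, a ((Equiv.funSplitAt l (Fin r)).symm (c, τ) v) *
        F v ((Equiv.funSplitAt l (Fin r)).symm (c, τ) v)) =
      (a c * F l c) * ∏ v : {v : V // v ≠ l}, a (τ v) * F v.1 (τ v) := by
    intro c
    rw [Fintype.prod_eq_mul_prod_subtype_ne _ l, hvl]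
    congr 1
    apply Finset.prod_congr rfl
    intro v _
    rw [hval]
  have hrhs : (∏ v : {v : V // v ≠ l}, a (τ v) *
      (if v.1 = u then F u (τ v) * Mop a (F l) (τ v) else F v.1 (τ v))) =
      (∏ v : {v : V // v ≠ l}, a (τ v) * F v.1 (τ v)) * Mop a (F l) (τ u') := by
    have h1 : ∀ v : {v : V // v ≠ l}, a (τ v) *
        (if v.1 = u then F u (τ v) * Mop a (F l) (τ v) else F v.1 (τ v)) =
        (a (τ v) * F v.1 (τ v)) * (if v = u' then Mop a (F l) (τ v) else 1) := by
      intro v
      by_cases hv : v.1 = u
      · have hv' : v = u' := Subtype.ext hv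
        rw [if_pos hv, if_pos hv', hv]
        ring
      · have hv' : v ≠ u' := fun h => hv (by rw [h])
        rw [if_neg hv, if_neg hv', mul_one]
    rw [Finset.prod_congr rfl (fun v _ => h1 v), Finset.prod_mul_distrib]
    congr 1
    rw [Finset.prod_ite_eq' Finset.univ u' (fun v => Mop a (F l) (τ v))]
    simp
  by_cases hτ : ∀ x y : {v : V // v ≠ l}, (del G l).Adj x y → τ x ≠ τ y
  · rw [if_pos hτ]
    refine (Finset.sum_congr rfl (g := fun c =>
        ((a c * F l c) - (if c = τ u' then a c * F l c else 0)) *
          ∏ v : {v : V // v ≠ l}, a (τ v) * F v.1 (τ v)) ?_).trans ?_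
    · intro c _
      rw [hprod c]
      by_cases hc : c = τ u'
      · rw [if_neg (fun h => ((hP c).mp h).2 hc), if_pos hc, sub_self, zero_mul]
      · rw [if_pos ((hP c).mpr ⟨hτ, hc⟩), if_neg hc, sub_zero]
    · rw [← Finset.sum_mul, Finset.sum_sub_distrib,
        Finset.sum_ite_eq' Finset.univ (τ u') (fun c => a c * F l c), if_pos (Finset.mem_univ _)]
      refine Eq.trans ?_ hrhs.symm
      unfold Mop
      ring
  · rw [if_neg hτ]
    apply Finset.sum_eq_zero
    intro c _
    rw [if_neg (fun h => hτ ((hP c).mp h).1)]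

end Pool.Agent.W255.HL
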